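import Mathlib

/-!
# Matrix algebra for the squeezing measure: Cayley transform of symplectic matrices
-/

namespace Squeezing

open Matrix
open scoped MatrixOrder Matrix.Norms.L2Operator

variable {ι : Type} [Fintype ι] [DecidableEq ι]

theorem inv_mul_self {A : Matrix ι ι ℝ} (hA : A.PosDef) : A⁻¹ * A = 1 :=
  Matrix.nonsing_inv_mul A ((Matrix.isUnit_iff_isUnit_det A).1 hA.isUnit)

theorem self_mul_inv {A : Matrix ι ι ℝ} (hA : A.PosDef) : A * A⁻¹ = 1 :=
  Matrix.mul_nonsing_inv A ((Matrix.isUnit_iff_isUnit_det A).1 hA.isUnit)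

/-- The inverse is antitone. -/
theorem inv_anti {A B : Matrix ι ι ℝ} (hA : A.PosDef) (hAB : (B - A).PosSemidef) :
    (A⁻¹ - B⁻¹).PosSemidef := by
  have hB : B.PosDef := by
    have := hA.add_posSemidef hAB
    rwa [add_sub_cancel] at this
  have hAi := hA.inv
  have hBi := hB.inv
  have hD : (A⁻¹ - B⁻¹)ᴴ = A⁻¹ - B⁻¹ := by
    rw [conjTranspose_sub, hAi.isHermitian.eq, hBi.isHermitian.eq]
  have h1 : ((A⁻¹ - B⁻¹)ᴴ * A * (A⁻¹ - B⁻¹)).PosSemidef :=
    hA.posSemidef.conjTranspose_mul_mul_same _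
  have h2 : ((B⁻¹)ᴴ * (B - A) * B⁻¹).PosSemidef := hAB.conjTranspose_mul_mul_same _
  have h3 := h1.add h2
  rw [hD, hBi.isHermitian.eq] at h3
  have e : (A⁻¹ - B⁻¹) * A * (A⁻¹ - B⁻¹) + B⁻¹ * (B - A) * B⁻¹ = A⁻¹ - B⁻¹ := by
    have e1 := inv_mul_self hA
    have e2 := self_mul_inv hA
    have e3 := inv_mul_self hB
    have e4 := self_mul_inv hB
    have e5 : B⁻¹ * B * B⁻¹ = B⁻¹ := by rw [e3, one_mul]
    have e6 : A⁻¹ * A * A⁻¹ = A⁻¹ := by rw [e1, one_mul]
    have e7 : A⁻¹ * A * B⁻¹ = B⁻¹ := by rw [e1, one_mul]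
    have e8 : B⁻¹ * A * A⁻¹ = B⁻¹ := by rw [mul_assoc, e2, mul_one]
    rw [sub_mul, sub_mul, mul_sub, mul_sub, mul_sub, sub_mul, e5, e6, e7, e8]
    abel
  rwa [e] at h3

section J

variable {J : Matrix ι ι ℝ} (hJT : Jᴴ = -J) (hJ2 : J * J = -1)

include hJT hJ2

theorem J_mul_JH : J * Jᴴ = 1 := by rw [hJT, mul_neg, hJ2, neg_neg]

theorem JH_mul_J : Jᴴ * J = 1 := by rw [hJT, neg_mul, hJ2, neg_neg]

theorem posDef_conj {A : Matrix ι ι ℝ} (hA : A.PosDef) : (J * A * Jᴴ).PosDef := by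
  have hu : IsUnit Jᴴ := by
    refine ⟨⟨Jᴴ, J, JH_mul_J hJT hJ2, J_mul_JH hJT hJ2⟩, rfl⟩
  have := (Matrix.IsUnit.posDef_star_left_conjugate_iff (x := A) hu).2 hA
  simpa [star_eq_conjTranspose] using this

/-- The set of parameters. -/
def WSet (J : Matrix ι ι ℝ) : Set (Matrix ι ι ℝ) :=
  {W | W.IsHermitian ∧ J * W = -(W * J) ∧ (1 - W).PosSemidef ∧ (1 + W).PosSemidef}

omit hJT hJ2 in
theorem one_sub_W_anti {X : Matrix ι ι ℝ} (hX : J * X = -(X * J)) :
    J * (1 - X) = (1 + X) * J := by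
  rw [mul_sub, hX, mul_one, add_mul, one_mul, sub_neg_eq_add]

omit hJT hJ2 in
theorem one_add_W_anti {X : Matrix ι ι ℝ} (hX : J * X = -(X * J)) :
    J * (1 + X) = (1 - X) * J := by
  rw [mul_add, hX, mul_one, sub_mul, one_mul, sub_eq_add_neg]

/-- Facts about a symmetric matrix `H` that anticommutes with `J` and satisfies `H < 1`. -/
theorem one_add_posDef {H : Matrix ι ι ℝ} (hH : J * H = -(H * J)) (h1 : (1 - H).PosDef) :
    (1 + H).PosDef := by
  have := posDef_conj hJT hJ2 h1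
  rwa [one_sub_W_anti hH, mul_assoc, J_mul_JH hJT hJ2, mul_one] at this

/-- The inverse Cayley transform. -/
noncomputable def cay (H : Matrix ι ι ℝ) : Matrix ι ι ℝ := (2 : ℝ) • (1 - H)⁻¹ - 1

omit hJT hJ2 in
theorem cay_eq {H : Matrix ι ι ℝ} (h1 : (1 - H).PosDef) : cay H = (1 + H) * (1 - H)⁻¹ := by
  have e : (1 + H) = (2 : ℝ) • 1 - (1 - H) := by rw [two_smul]; abel
  rw [cay, e, sub_mul, smul_mul_assoc, one_mul, self_mul_inv h1]

omit hJT hJ2 in
theorem cay_eq' {H : Matrix ι ι ℝ} (h1 : (1 - H).PosDef) : cay H = (1 - H)⁻¹ * (1 + H) := by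
  have e : (1 + H) = (2 : ℝ) • 1 - (1 - H) := by rw [two_smul]; abel
  rw [cay, e, mul_sub, mul_smul_comm, mul_one, inv_mul_self h1]

omit hJT hJ2 in
theorem cay_mul_J {H : Matrix ι ι ℝ} (hH : J * H = -(H * J)) (h1 : (1 - H).PosDef) :
    cay H * J * cay H = J := by
  have e1 : cay H * J * cay H = (1 - H)⁻¹ * (1 + H) * J * ((1 + H) * (1 - H)⁻¹) := by
    nth_rewrite 1 [cay_eq' h1]
    rw [cay_eq h1]
  have e2 : J * (1 + H) = (1 - H) * J := one_add_W_anti hH
  have e3 : (1 - H)⁻¹ * (1 + H) * (1 - H) = 1 + H := by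
    have : (1 + H) * (1 - H) = (1 - H) * (1 + H) := by noncomm_ring
    rw [mul_assoc, this, ← mul_assoc, inv_mul_self h1, one_mul]
  calc cay H * J * cay H = (1 - H)⁻¹ * (1 + H) * J * ((1 + H) * (1 - H)⁻¹) := e1
    _ = (1 - H)⁻¹ * (1 + H) * (J * (1 + H)) * (1 - H)⁻¹ := by simp only [mul_assoc]
    _ = (1 - H)⁻¹ * (1 + H) * (1 - H) * J * (1 - H)⁻¹ := by rw [e2]; simp only [mul_assoc]
    _ = (1 + H) * J * (1 - H)⁻¹ := by rw [e3]
    _ = J * (1 - H) * (1 - H)⁻¹ := by rw [one_sub_W_anti hH]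
    _ = J := by rw [mul_assoc, self_mul_inv h1, mul_one]

omit hJT hJ2 in
theorem cay_isHermitian {H : Matrix ι ι ℝ} (h1 : (1 - H).PosDef) : (cay H).IsHermitian := by
  have := h1.inv.isHermitian.eq
  rw [Matrix.IsHermitian, cay, conjTranspose_sub, conjTranspose_smul, this, star_trivial,
    conjTranspose_one]

theorem isUnit_of_mul {M : Matrix ι ι ℝ} (h : M * J * M = J) : IsUnit M := by
  have h1 : M * (J * M * Jᴴ) = 1 := by
    rw [← mul_assoc, ← mul_assoc, h, J_mul_JH hJT hJ2]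
  exact (Matrix.isUnit_iff_isUnit_det M).2 (IsUnit.of_mul_eq_one (J * M * Jᴴ).det (by
    rw [← det_mul, h1, det_one]))

theorem cay_posDef {H : Matrix ι ι ℝ} (hH : J * H = -(H * J)) (h1 : (1 - H).PosDef) :
    (cay H).PosDef := by
  have h2 := one_add_posDef hJT hJ2 hH h1
  have h3 : (((2 : ℝ) • (1 : Matrix ι ι ℝ)) - (1 - H)).PosSemidef := by
    have : ((2 : ℝ) • (1 : Matrix ι ι ℝ)) - (1 - H) = 1 + H := by rw [two_smul]; abel
    rw [this]; exact h2.posSemidef
  have h4 := inv_anti h1 h3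
  have h5 : ((2 : ℝ) • (1 : Matrix ι ι ℝ))⁻¹ = (2⁻¹ : ℝ) • (1 : Matrix ι ι ℝ) := by
    refine Matrix.inv_eq_right_inv ?_
    rw [smul_mul_smul_comm, mul_one]
    norm_num
  rw [h5] at h4
  have h6 : (cay H).PosSemidef := by
    have := h4.smul (show (0 : ℝ) ≤ 2 by norm_num)
    have e : (2 : ℝ) • ((1 - H)⁻¹ - (2⁻¹ : ℝ) • (1 : Matrix ι ι ℝ)) = cay H := by
      rw [cay, smul_sub, smul_smul]
      norm_num
    rwa [e] at this
  exact h6.posDef_iff_isUnit.2 (isUnit_of_mul hJT hJ2 (cay_mul_J hH h1))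

/-- The Cayley transform. -/
noncomputable def icay (M : Matrix ι ι ℝ) : Matrix ι ι ℝ := 1 - (2 : ℝ) • (M + 1)⁻¹

omit hJT hJ2 in
theorem one_sub_icay {M : Matrix ι ι ℝ} : 1 - icay M = (2 : ℝ) • (M + 1)⁻¹ := by
  rw [icay]; abel

omit hJT hJ2 in
theorem one_sub_icay_posDef {M : Matrix ι ι ℝ} (hM : M.PosDef) : (1 - icay M).PosDef := by
  rw [one_sub_icay]
  exact (hM.add Matrix.PosDef.one).inv.smul (by norm_num)

omit hJT hJ2 in
theorem cay_icay {M : Matrix ι ι ℝ} (hM : M.PosDef) : cay (icay M) = M := by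
  have h1 := hM.add (Matrix.PosDef.one (n := ι) (R := ℝ))
  rw [cay, one_sub_icay]
  have : ((2 : ℝ) • (M + 1)⁻¹)⁻¹ = (2⁻¹ : ℝ) • (M + 1) := by
    refine Matrix.inv_eq_right_inv ?_
    rw [smul_mul_smul_comm, inv_mul_self h1]
    norm_num
  rw [this, smul_smul]
  norm_num

omit hJT hJ2 in
theorem icay_isHermitian {M : Matrix ι ι ℝ} (hM : M.PosDef) : (icay M).IsHermitian := by
  have h1 := (hM.add (Matrix.PosDef.one (n := ι) (R := ℝ))).inv.isHermitian.eq
  rw [Matrix.IsHermitian, icay, conjTranspose_sub, conjTranspose_smul, h1, star_trivial,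
    conjTranspose_one]

omit hJT hJ2 in
theorem icay_anti {M : Matrix ι ι ℝ} (hM : M.PosDef) (h : M * J * M = J) :
    J * icay M = -(icay M * J) := by
  have h1 := hM.add (Matrix.PosDef.one (n := ι) (R := ℝ))
  set E := (M + 1)⁻¹ with hE
  have e1 : (M + 1) * E = 1 := self_mul_inv h1
  have e2 : E * (M + 1) = 1 := inv_mul_self h1
  have e3 : M * E = 1 - E := by rw [← e1]; noncomm_ring
  have e4 : E * M = 1 - E := by rw [← e2]; noncomm_ring
  have e5 : J * E = M * J * (1 - E) := by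
    calc J * E = (M * J * M) * E := by rw [h]
      _ = M * J * (M * E) := by simp only [mul_assoc]
      _ = _ := by rw [e3]
  have e6 : M * J = (M + 1) * (J * E) := by
    have : M * J * (1 - E) = M * J - M * (J * E) := by noncomm_ring
    rw [this] at e5
    have h7 : M * J = J * E + M * (J * E) := sub_eq_iff_eq_add.1 e5.symm
    rw [h7]; noncomm_ring
  have e7 : J * E = E * M * J := by
    calc J * E = E * (M + 1) * (J * E) := by rw [e2, one_mul]
      _ = E * ((M + 1) * (J * E)) := by rw [mul_assoc]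
      _ = E * (M * J) := by rw [← e6]
      _ = _ := by rw [mul_assoc]
  rw [e4] at e7
  rw [icay, ← hE, mul_sub, mul_smul_comm, e7, sub_mul, sub_mul, smul_mul_assoc, one_mul, mul_one,
    smul_sub, two_smul, two_smul]
  abel

omit hJT hJ2 in
/-- Monotonicity of the Cayley transform. -/
theorem icay_mono {M γ : Matrix ι ι ℝ} (hM : M.PosDef) (h : (γ - M).PosSemidef) :
    (icay γ - icay M).PosSemidef := by
  have h1 := hM.add (Matrix.PosDef.one (n := ι) (R := ℝ))
  have h2 : ((γ + 1) - (M + 1)).PosSemidef := by rwa [add_sub_add_right_eq_sub]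
  have h3 := (inv_anti h1 h2).smul (show (0 : ℝ) ≤ 2 by norm_num)
  have e : icay γ - icay M = (2 : ℝ) • ((M + 1)⁻¹ - (γ + 1)⁻¹) := by
    rw [icay, icay, smul_sub]; abel
  rwa [e]

omit hJT hJ2 in
theorem cay_mono {H K : Matrix ι ι ℝ} (hK : (1 - K).PosDef) (h : (K - H).PosSemidef) :
    (cay K - cay H).PosSemidef := by
  have h2 : ((1 - H) - (1 - K)).PosSemidef := by
    have : (1 - H) - (1 - K) = K - H := by abel
    rwa [this]
  have h3 := (inv_anti hK h2).smul (show (0 : ℝ) ≤ 2 by norm_num)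
  have e : cay K - cay H = (2 : ℝ) • ((1 - K)⁻¹ - (1 - H)⁻¹) := by
    rw [cay, cay, smul_sub]; abel
  rwa [e]

/-- The part of `K` that anticommutes with `J`. -/
noncomputable def aPart (J K : Matrix ι ι ℝ) : Matrix ι ι ℝ := (2⁻¹ : ℝ) • (K + J * K * J)

/-- The part of `K` that commutes with `J`. -/
noncomputable def cPart (J K : Matrix ι ι ℝ) : Matrix ι ι ℝ := (2⁻¹ : ℝ) • (K - J * K * J)

omit hJT hJ2 in
theorem aPart_add_cPart (K : Matrix ι ι ℝ) : aPart J K + cPart J K = K := by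
  rw [aPart, cPart, ← smul_add]
  have : K + J * K * J + (K - J * K * J) = (2 : ℝ) • K := by rw [two_smul]; abel
  rw [this, smul_smul]
  norm_num

omit hJT in
theorem aPart_anti (K : Matrix ι ι ℝ) : J * aPart J K = -(aPart J K * J) := by
  have e1 : J * (J * K * J) = -(K * J) := by
    rw [← mul_assoc, ← mul_assoc, hJ2]; noncomm_ring
  have e2 : (J * K * J) * J = -(J * K) := by
    rw [mul_assoc (J * K), hJ2]; noncomm_ring
  rw [aPart, mul_smul_comm, smul_mul_assoc, mul_add, add_mul, e1, e2, ← smul_neg]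
  congr 1
  abel

omit hJT in
theorem cPart_comm (K : Matrix ι ι ℝ) : J * cPart J K = cPart J K * J := by
  have e1 : J * (J * K * J) = -(K * J) := by
    rw [← mul_assoc, ← mul_assoc, hJ2]; noncomm_ring
  have e2 : (J * K * J) * J = -(J * K) := by
    rw [mul_assoc (J * K), hJ2]; noncomm_ring
  rw [cPart, mul_smul_comm, smul_mul_assoc, mul_sub, sub_mul, e1, e2]
  congr 1
  abel

omit hJ2 in
theorem aPart_isHermitian {K : Matrix ι ι ℝ} (hK : K.IsHermitian) : (aPart J K).IsHermitian := by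
  rw [Matrix.IsHermitian, aPart, conjTranspose_smul, conjTranspose_add, conjTranspose_mul,
    conjTranspose_mul, hK.eq, hJT, star_trivial]
  congr 2
  noncomm_ring

omit hJ2 in
theorem cPart_isHermitian {K : Matrix ι ι ℝ} (hK : K.IsHermitian) : (cPart J K).IsHermitian := by
  rw [Matrix.IsHermitian, cPart, conjTranspose_smul, conjTranspose_sub, conjTranspose_mul,
    conjTranspose_mul, hK.eq, hJT, star_trivial]
  congr 2
  noncomm_ring

end J

end Squeezing
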