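import Pool.Agent.Work.MP_7519fb_mp.Val

/-!
# Surjectivity of the parametrisation and continuity
-/

namespace Squeezing

open Matrix Filter Topology
open scoped MatrixOrder Matrix.Norms.L2Operator

variable {ι : Type} [Fintype ι] [DecidableEq ι]

variable {J : Matrix ι ι ℝ}

theorem isUnit_sqrt {P : Matrix ι ι ℝ} (hP : P.PosDef) : IsUnit (CFC.sqrt P) := by
  have hs : CFC.sqrt P * CFC.sqrt P = P :=
    CFC.sqrt_mul_sqrt_self _ (Matrix.nonneg_iff_posSemidef.2 hP.posSemidef)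
  have hu : IsUnit (P.det) := (Matrix.isUnit_iff_isUnit_det P).1 hP.isUnit
  refine (Matrix.isUnit_iff_isUnit_det _).2 ?_
  rw [← hs, det_mul] at hu
  exact isUnit_of_mul_isUnit_left hu

theorem sqrt_posDef {P : Matrix ι ι ℝ} (hP : P.PosDef) : (CFC.sqrt P).PosDef :=
  (Matrix.nonneg_iff_posSemidef.1 (CFC.sqrt_nonneg P)).posDef_iff_isUnit.2 (isUnit_sqrt hP)

theorem exists_W_pos {P X : Matrix ι ι ℝ} (hP : P.PosDef) (hPJ : J * P = P * J)
    (hX : X.IsHermitian) (hXJ : J * X = -(X * J)) (h1 : (P - X).PosSemidef)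
    (h2 : (P + X).PosSemidef) : ∃ W ∈ WSet J, CFC.sqrt P * W * CFC.sqrt P = X := by
  have hs : CFC.sqrt P * CFC.sqrt P = P :=
    CFC.sqrt_mul_sqrt_self _ (Matrix.nonneg_iff_posSemidef.2 hP.posSemidef)
  have hT := sqrt_posDef hP
  have hJT := sqrt_comm hP.posSemidef hPJ
  set T := CFC.sqrt P with hTdef
  have e1 : T⁻¹ * T = 1 := inv_mul_self hT
  have e2 : T * T⁻¹ = 1 := self_mul_inv hT
  have hTi : (T⁻¹)ᴴ = T⁻¹ := hT.inv.isHermitian
  have hJTi : J * T⁻¹ = T⁻¹ * J := by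
    calc J * T⁻¹ = T⁻¹ * T * (J * T⁻¹) := by rw [e1, one_mul]
      _ = T⁻¹ * (T * J) * T⁻¹ := by simp only [mul_assoc]
      _ = T⁻¹ * J * (T * T⁻¹) := by rw [← hJT]; simp only [mul_assoc]
      _ = _ := by rw [e2, mul_one]
  have e3 : T⁻¹ * P * T⁻¹ = 1 := by
    rw [← hs, ← mul_assoc, e1, one_mul, e2]
  refine ⟨T⁻¹ * X * T⁻¹, ⟨?_, ?_, ?_, ?_⟩, ?_⟩
  · rw [Matrix.IsHermitian, conjTranspose_mul, conjTranspose_mul, hTi, hX.eq, mul_assoc]
  · calc J * (T⁻¹ * X * T⁻¹) = (J * T⁻¹) * X * T⁻¹ := by simp only [mul_assoc]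
      _ = T⁻¹ * (J * X) * T⁻¹ := by rw [hJTi]; simp only [mul_assoc]
      _ = -(T⁻¹ * X * (J * T⁻¹)) := by rw [hXJ]; simp only [mul_neg, neg_mul, mul_assoc]
      _ = -(T⁻¹ * X * T⁻¹ * J) := by rw [hJTi]; simp only [mul_assoc]
  · have := h1.conjTranspose_mul_mul_same T⁻¹
    rw [hTi, mul_sub, sub_mul, e3] at this
    exact this
  · have := h2.conjTranspose_mul_mul_same T⁻¹
    rw [hTi, mul_add, add_mul, e3] at this
    exact this
  · calc T * (T⁻¹ * X * T⁻¹) * T = (T * T⁻¹) * X * (T⁻¹ * T) := by simp only [mul_assoc]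
      _ = X := by rw [e1, e2, one_mul, mul_one]

theorem exists_W {P X : Matrix ι ι ℝ} (hP : P.PosSemidef) (hPJ : J * P = P * J)
    (hX : X.IsHermitian) (hXJ : J * X = -(X * J)) (h1 : (P - X).PosSemidef)
    (h2 : (P + X).PosSemidef) : ∃ W ∈ WSet J, CFC.sqrt P * W * CFC.sqrt P = X := by
  let ε : ℕ → ℝ := fun k => 1 / ((k : ℝ) + 1)
  have hε : ∀ k, 0 < ε k := fun k => by positivity
  let Pk : ℕ → Matrix ι ι ℝ := fun k => P + ε k • (1 : Matrix ι ι ℝ)
  have hone : ∀ k, (ε k • (1 : Matrix ι ι ℝ)).PosDef := fun k => Matrix.PosDef.one.smul (hε k)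
  have hPk : ∀ k, (Pk k).PosDef := fun k => (hone k).posSemidef_add hP
  have hPkJ : ∀ k, J * Pk k = Pk k * J := by
    intro k
    simp only [Pk, mul_add, add_mul, hPJ, mul_smul_comm, smul_mul_assoc, mul_one, one_mul]
  have hk : ∀ k, ∃ W ∈ WSet J, CFC.sqrt (Pk k) * W * CFC.sqrt (Pk k) = X := by
    intro k
    refine exists_W_pos (hPk k) (hPkJ k) hX hXJ ?_ ?_
    · have := h1.add (hone k).posSemidef
      have e : P - X + ε k • (1 : Matrix ι ι ℝ) = Pk k - X := by simp only [Pk]; abel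
      rwa [e] at this
    · have := h2.add (hone k).posSemidef
      have e : P + X + ε k • (1 : Matrix ι ι ℝ) = Pk k + X := by simp only [Pk]; abel
      rwa [e] at this
  choose W hW1 hW2 using hk
  obtain ⟨W0, hW0, φ, hφ, hlim⟩ := isCompact_WSet.tendsto_subseq hW1
  refine ⟨W0, hW0, ?_⟩
  have hPlim : Tendsto Pk atTop (𝓝 P) := by
    have h3 : Tendsto ε atTop (𝓝 0) := tendsto_one_div_add_atTop_nhds_zero_nat
    have h4 : Tendsto (fun k => P + ε k • (1 : Matrix ι ι ℝ)) atTop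
        (𝓝 (P + (0 : ℝ) • (1 : Matrix ι ι ℝ))) :=
      tendsto_const_nhds.add (h3.smul tendsto_const_nhds)
    simpa using h4
  have hsq : Tendsto (fun k => CFC.sqrt (Pk (φ k))) atTop (𝓝 (CFC.sqrt P)) := by
    have hc := CFC.continuousOn_sqrt (A := Matrix ι ι ℝ) P (Matrix.nonneg_iff_posSemidef.2 hP)
    refine hc.tendsto.comp ?_
    refine tendsto_nhdsWithin_iff.2 ⟨hPlim.comp hφ.tendsto_atTop, ?_⟩
    exact Eventually.of_forall fun k => Matrix.nonneg_iff_posSemidef.2 (hPk _).posSemidef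
  have h5 : Tendsto (fun k => CFC.sqrt (Pk (φ k)) * W (φ k) * CFC.sqrt (Pk (φ k))) atTop
      (𝓝 (CFC.sqrt P * W0 * CFC.sqrt P)) := (hsq.mul hlim).mul hsq
  have h6 : (fun k => CFC.sqrt (Pk (φ k)) * W (φ k) * CFC.sqrt (Pk (φ k))) = fun _ => X :=
    funext fun k => hW2 (φ k)
  rw [h6] at h5
  exact tendsto_nhds_unique h5 tendsto_const_nhds

/-- Every pure covariance matrix below `γ` is parametrised. -/
theorem exists_param (hJT : Jᴴ = -J) (hJ2 : J * J = -1) {γ M : Matrix ι ι ℝ} (h : RealCov J γ)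
    (hM : M.PosDef) (hMJ : M * J * M = J) (hle : (γ - M).PosSemidef) :
    ∃ W ∈ WSet J, Mmat J γ W = M := by
  have hγ := h.posDef hJT hJ2
  have hP := h.cPart_nonneg hJT hJ2
  have hH := icay_isHermitian hM
  have hHJ := icay_anti hM hMJ
  have hHK := icay_mono hM hle
  have hAh := aPart_isHermitian hJT (icay_isHermitian hγ)
  have hAJ := aPart_anti hJ2 (icay γ)
  have hPJ := cPart_comm hJ2 (icay γ)
  set X := icay M - aPart J (icay γ) with hXdef
  have hX : X.IsHermitian := hH.sub hAh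
  have hXJ : J * X = -(X * J) := by
    rw [hXdef, mul_sub, sub_mul, hHJ, hAJ]; abel
  have h1 : (cPart J (icay γ) - X).PosSemidef := by
    have e : cPart J (icay γ) - X = icay γ - icay M := by
      nth_rewrite 2 [← aPart_add_cPart (J := J) (icay γ)]
      rw [hXdef]; abel
    rw [e]; exact hHK
  have h2 : (cPart J (icay γ) + X).PosSemidef := by
    have h3 := h1.mul_mul_conjTranspose_same J
    have e : J * (cPart J (icay γ) - X) * Jᴴ = cPart J (icay γ) + X := by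
      have e1 : J * (cPart J (icay γ) - X) = (cPart J (icay γ) + X) * J := by
        rw [mul_sub, add_mul, hPJ, hXJ]; abel
      rw [e1, mul_assoc, J_mul_JH hJT hJ2, mul_one]
    rwa [e] at h3
  obtain ⟨W, hW, hWX⟩ := exists_W hP hPJ hX hXJ h1 h2
  refine ⟨W, hW, ?_⟩
  have : Hmat J γ W = icay M := by
    rw [Hmat, hWX, hXdef]; abel
  rw [Mmat, this, cay_icay hM]

/-- The square root of a positive definite symplectic matrix is symplectic. -/
theorem sqrt_sympl (hJT : Jᴴ = -J) (hJ2 : J * J = -1) {M : Matrix ι ι ℝ} (hM : M.PosDef)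
    (h : M * J * M = J) : CFC.sqrt M * J * CFC.sqrt M = J := by
  have hs : CFC.sqrt M * CFC.sqrt M = M :=
    CFC.sqrt_mul_sqrt_self _ (Matrix.nonneg_iff_posSemidef.2 hM.posSemidef)
  have hT := sqrt_posDef hM
  have e1 := inv_mul_self hT
  have e2 := self_mul_inv hT
  -- `J T⁻¹ Jᴴ` is a positive square root of `M`
  have hTi := posDef_conj hJT hJ2 hT.inv
  have hsq : (J * (CFC.sqrt M)⁻¹ * Jᴴ) * (J * (CFC.sqrt M)⁻¹ * Jᴴ) = M := by
    have h3 : (CFC.sqrt M)⁻¹ * (CFC.sqrt M)⁻¹ * M = 1 := by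
      nth_rewrite 3 [← hs]
      calc (CFC.sqrt M)⁻¹ * (CFC.sqrt M)⁻¹ * (CFC.sqrt M * CFC.sqrt M)
          = (CFC.sqrt M)⁻¹ * ((CFC.sqrt M)⁻¹ * CFC.sqrt M) * CFC.sqrt M := by
            simp only [mul_assoc]
        _ = 1 := by rw [e1, mul_one, e1]
    have h4 : (J * (CFC.sqrt M)⁻¹ * Jᴴ) * (J * (CFC.sqrt M)⁻¹ * Jᴴ) =
        J * ((CFC.sqrt M)⁻¹ * (CFC.sqrt M)⁻¹) * Jᴴ := by
      calc _ = J * (CFC.sqrt M)⁻¹ * (Jᴴ * J) * (CFC.sqrt M)⁻¹ * Jᴴ := by simp only [mul_assoc]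
        _ = _ := by rw [JH_mul_J hJT hJ2, mul_one]; simp only [mul_assoc]
    rw [h4]
    -- M = M J (T⁻¹ T⁻¹ M)  Jᴴ ...
    set Y := (CFC.sqrt M)⁻¹ * (CFC.sqrt M)⁻¹ with hY
    have h5 : M * J = J * Y := by
      have h6 : M * Y = 1 := by
        have := mul_eq_one_comm.1 h3
        exact this
      calc M * J = M * J * (M * Y) := by rw [h6, mul_one]
        _ = (M * J * M) * Y := by simp only [mul_assoc]
        _ = _ := by rw [h]
    rw [← h5, mul_assoc, J_mul_JH hJT hJ2, mul_one]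
  have huniq : CFC.sqrt M = J * (CFC.sqrt M)⁻¹ * Jᴴ :=
    CFC.sqrt_unique hsq (Matrix.nonneg_iff_posSemidef.2 hTi.posSemidef)
  calc CFC.sqrt M * J * CFC.sqrt M = (J * (CFC.sqrt M)⁻¹ * Jᴴ) * J * CFC.sqrt M := by
        rw [← huniq]
    _ = J * (CFC.sqrt M)⁻¹ * (Jᴴ * J) * CFC.sqrt M := by simp only [mul_assoc]
    _ = J := by rw [JH_mul_J hJT hJ2, mul_one, mul_assoc, e1, mul_one]

/-- The value depends continuously on positive definite matrices. -/
theorem continuousOn_tval : ContinuousOn (tval (ι := ι)) {M | M.PosDef} := by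
  have h1 : ContinuousOn (fun M : Matrix ι ι ℝ => cfc (fun x : ℝ => |Real.log x|) M)
      {M | M.PosDef} := by
    refine ContinuousOn.cfc_of_mem_nhdsSet (s := Set.Ioi 0) _ ?_ continuousOn_id
      (fun M hM => (show M.PosDef from hM).isHermitian) ?_
    · refine isOpen_Ioi.mem_nhdsSet.2 ?_
      intro x hx
      simp only [Set.mem_iUnion] at hx
      obtain ⟨M, hM, hx⟩ := hx
      have hM' : M.PosDef := hM
      change x ∈ spectrum ℝ M at hx
      rw [hM'.isHermitian.spectrum_real_eq_range_eigenvalues] at hx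
      obtain ⟨i, rfl⟩ := hx
      exact hM'.eigenvalues_pos i
    · exact (Real.continuousOn_log.mono (fun x hx => (ne_of_gt hx))).abs
  have h2 : Continuous (fun A : Matrix ι ι ℝ => 4⁻¹ * A.trace) :=
    continuous_const.mul continuous_id.matrix_trace
  exact h2.comp_continuousOn h1

theorem continuousOn_inv : ContinuousOn (fun A : Matrix ι ι ℝ => A⁻¹) {A | A.PosDef} := by
  have : ContinuousOn (fun A : Matrix ι ι ℝ => (A.det)⁻¹ • A.adjugate) {A | A.PosDef} := by
    have h1 : ContinuousOn (fun A : Matrix ι ι ℝ => (A.det)⁻¹) {A | A.PosDef} := by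
      refine ContinuousOn.inv₀ (continuous_id.matrix_det).continuousOn ?_
      intro A hA
      exact (show A.PosDef from hA).det_pos.ne'
    have h2 : ContinuousOn (fun A : Matrix ι ι ℝ => A.adjugate) {A | A.PosDef} :=
      (continuous_id.matrix_adjugate).continuousOn
    exact h1.smul h2
  refine this.congr ?_
  intro A hA
  change A⁻¹ = A.det⁻¹ • A.adjugate
  rw [Matrix.inv_def, Ring.inverse_eq_inv']

theorem continuousOn_Mmat (hJT : Jᴴ = -J) (hJ2 : J * J = -1) :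
    ContinuousOn (fun p : Matrix ι ι ℝ × Matrix ι ι ℝ => Mmat J p.1 p.2)
      {p | RealCov J p.1 ∧ p.2 ∈ WSet J} := by
  have h1 : ContinuousOn (fun p : Matrix ι ι ℝ × Matrix ι ι ℝ => icay p.1)
      {p | RealCov J p.1 ∧ p.2 ∈ WSet J} := by
    have h0 : ContinuousOn (fun p : Matrix ι ι ℝ × Matrix ι ι ℝ => (p.1 + 1)⁻¹)
      {p | RealCov J p.1 ∧ p.2 ∈ WSet J} := ?_
    · unfold icay
      fun_prop
    refine continuousOn_inv.comp (f := fun p : Matrix ι ι ℝ × Matrix ι ι ℝ => p.1 + 1)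
      (continuous_fst.add continuous_const).continuousOn ?_
    intro p hp
    exact (hp.1.posDef hJT hJ2).add Matrix.PosDef.one
  have h2 : Continuous (aPart J) := by
    unfold aPart
    fun_prop
  have h3 : Continuous (cPart J) := by
    unfold cPart
    fun_prop
  have h4 : ContinuousOn (fun p : Matrix ι ι ℝ × Matrix ι ι ℝ => CFC.sqrt (cPart J (icay p.1)))
      {p | RealCov J p.1 ∧ p.2 ∈ WSet J} := by
    refine (CFC.continuousOn_sqrt (A := Matrix ι ι ℝ)).comp (h3.comp_continuousOn h1) ?_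
    intro p hp
    exact Matrix.nonneg_iff_posSemidef.2 (hp.1.cPart_nonneg hJT hJ2)
  have h5 : ContinuousOn (fun p : Matrix ι ι ℝ × Matrix ι ι ℝ => Hmat J p.1 p.2)
      {p | RealCov J p.1 ∧ p.2 ∈ WSet J} := by
    unfold Hmat
    exact (h2.comp_continuousOn h1).add ((h4.mul continuous_snd.continuousOn).mul h4)
  have h6 : ContinuousOn (fun p : Matrix ι ι ℝ × Matrix ι ι ℝ => (1 - Hmat J p.1 p.2)⁻¹)
      {p | RealCov J p.1 ∧ p.2 ∈ WSet J} := by
    refine continuousOn_inv.comp (continuousOn_const.sub h5) ?_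
    intro p hp
    exact one_sub_Hmat hJT hJ2 hp.1 hp.2
  unfold Mmat cay
  fun_prop

/-- The minimum of the value over the pure covariance matrices below `γ`, as a function of `γ`. -/
theorem continuousOn_sInf (hJT : Jᴴ = -J) (hJ2 : J * J = -1) :
    ContinuousOn (fun γ : Matrix ι ι ℝ => sInf ((fun W => tval (Mmat J γ W)) '' WSet J))
      {γ | RealCov J γ} := by
  rw [continuousOn_iff_continuous_domRestrict]
  have hf : Continuous (fun p : {γ : Matrix ι ι ℝ // RealCov J γ} × WSet J =>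
      tval (Mmat J p.1.1 p.2.1)) := by
    have h1 := continuousOn_tval.comp (continuousOn_Mmat hJT hJ2)
      (fun p (hp : RealCov J p.1 ∧ p.2 ∈ WSet J) => Mmat_posDef hJT hJ2 hp.1 hp.2)
    refine h1.comp_continuous (f := fun p : {γ : Matrix ι ι ℝ // RealCov J γ} × WSet J =>
      ((p.1.1, p.2.1) : Matrix ι ι ℝ × Matrix ι ι ℝ)) ?_ ?_
    · exact (continuous_subtype_val.comp continuous_fst).prodMk
        (continuous_subtype_val.comp continuous_snd)
    · intro p; exact ⟨p.1.2, p.2.2⟩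
  have hK : IsCompact (Set.univ : Set (WSet J)) :=
    isCompact_iff_isCompact_univ.1 isCompact_WSet
  have := hK.continuous_sInf (f := fun (γ : {γ : Matrix ι ι ℝ // RealCov J γ}) (W : WSet J) =>
    tval (Mmat J γ.1 W.1)) hf
  refine this.congr ?_
  intro γ
  simp only [Set.domRestrict_apply]
  congr 1
  ext r
  simp only [Set.mem_image, Set.mem_univ, true_and]
  constructor
  · rintro ⟨W, rfl⟩; exact ⟨W.1, W.2, rfl⟩
  · rintro ⟨W, hW, rfl⟩; exact ⟨⟨W, hW⟩, rfl⟩

end Squeezing
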