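import Pool.Agent.Work.MP_7519fb_mp.Alg

/-!
# Parametrisation of the pure covariance matrices below a given covariance matrix
-/

namespace Squeezing

open Matrix
open scoped MatrixOrder Matrix.Norms.L2Operator

variable {ι : Type} [Fintype ι] [DecidableEq ι]

variable {J : Matrix ι ι ℝ}

/-- The real form of the covariance condition. -/
def RealCov (J γ : Matrix ι ι ℝ) : Prop :=
  γ.IsHermitian ∧ ∀ x y : ι → ℝ,
    0 ≤ x ⬝ᵥ γ *ᵥ x + y ⬝ᵥ γ *ᵥ y + (x ⬝ᵥ J *ᵥ y - y ⬝ᵥ J *ᵥ x)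

variable (hJT : Jᴴ = -J) (hJ2 : J * J = -1)

include hJT hJ2

theorem skew (x y : ι → ℝ) : x ⬝ᵥ J *ᵥ y = -(y ⬝ᵥ J *ᵥ x) := by
  have h : Jᵀ = -J := hJT
  calc x ⬝ᵥ J *ᵥ y = (x ᵥ* J) ⬝ᵥ y := by rw [dotProduct_mulVec]
    _ = (Jᵀ *ᵥ x) ⬝ᵥ y := by rw [mulVec_transpose]
    _ = -(y ⬝ᵥ J *ᵥ x) := by rw [h, neg_mulVec, neg_dotProduct, dotProduct_comm]

theorem JJ (x : ι → ℝ) : J *ᵥ (J *ᵥ x) = -x := by
  rw [mulVec_mulVec, hJ2, neg_mulVec, one_mulVec]

theorem RealCov.posDef {γ : Matrix ι ι ℝ} (h : RealCov J γ) : γ.PosDef := by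
  refine Matrix.PosDef.of_dotProduct_mulVec_pos h.1 fun {x} hx => ?_
  rw [star_trivial]
  have h0 : ∀ x : ι → ℝ, 0 ≤ x ⬝ᵥ γ *ᵥ x := by
    intro x
    have := h.2 x 0
    simpa using this
  by_contra hneg
  have hx0 : x ⬝ᵥ γ *ᵥ x = 0 := le_antisymm (not_lt.1 hneg) (h0 x)
  set c := (J *ᵥ x) ⬝ᵥ γ *ᵥ (J *ᵥ x) with hc
  have hc0 : 0 ≤ c := h0 _
  have hxx : 0 < x ⬝ᵥ x := by
    have := Matrix.dotProduct_star_self_pos_iff.2 hx
    simpa using this
  set t := (x ⬝ᵥ x) / (c + 1) with ht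
  have ht0 : 0 < t := by positivity
  have h1 := h.2 x (t • (J *ᵥ x))
  have e1 : x ⬝ᵥ J *ᵥ (t • (J *ᵥ x)) = -(t * (x ⬝ᵥ x)) := by
    rw [mulVec_smul, JJ hJT hJ2, dotProduct_smul, dotProduct_neg, smul_eq_mul]; ring
  have e2 : (t • (J *ᵥ x)) ⬝ᵥ J *ᵥ x = t * (x ⬝ᵥ x) := by
    have := skew hJT hJ2 x (t • (J *ᵥ x))
    rw [e1] at this
    linarith
  have e3 : (t • (J *ᵥ x)) ⬝ᵥ γ *ᵥ (t • (J *ᵥ x)) = t * t * c := by
    rw [mulVec_smul, dotProduct_smul, smul_dotProduct, smul_eq_mul, smul_eq_mul, hc]; ring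
  rw [hx0, e1, e2, e3] at h1
  have h2 : t * c < x ⬝ᵥ x := by
    rw [ht, div_mul_eq_mul_div, div_lt_iff₀ (by linarith)]
    nlinarith
  nlinarith

/-- `P ≥ 0`. -/
theorem RealCov.cPart_nonneg {γ : Matrix ι ι ℝ} (h : RealCov J γ) :
    (cPart J (icay γ)).PosSemidef := by
  have hγ := h.posDef hJT hJ2
  have h1 := hγ.add (Matrix.PosDef.one (n := ι) (R := ℝ))
  set R := (γ + 1)⁻¹ with hR
  have hRs : Rᵀ = R := h1.inv.isHermitian
  have hRR : (γ + 1) * R = 1 := self_mul_inv h1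
  refine Matrix.PosSemidef.of_dotProduct_mulVec_nonneg
    (cPart_isHermitian hJT (icay_isHermitian hγ)) fun x => ?_
  rw [star_trivial]
  -- the two vectors
  set u := R *ᵥ x with hu
  set w := R *ᵥ (J *ᵥ x) with hw
  have hu1 : (γ + 1) *ᵥ u = x := by rw [hu, mulVec_mulVec, hRR, one_mulVec]
  have hw1 : (γ + 1) *ᵥ w = J *ᵥ x := by rw [hw, mulVec_mulVec, hRR, one_mulVec]
  have hv := h.2 u w
  -- expand
  have e0 : cPart J (icay γ) = 1 - R + J * R * J := by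
    rw [cPart, icay, ← hR]
    have : (1 - (2 : ℝ) • R - J * (1 - (2 : ℝ) • R) * J) = (2 : ℝ) • (1 - R + J * R * J) := by
      rw [mul_sub, sub_mul, mul_one, hJ2, mul_smul_comm, smul_mul_assoc, smul_add, smul_sub,
        two_smul ℝ (1 : Matrix ι ι ℝ)]
      abel
    rw [this, smul_smul]
    norm_num
  rw [e0]
  have e1 : (1 - R + J * R * J) *ᵥ x = x - u + J *ᵥ w := by
    rw [add_mulVec, sub_mulVec, one_mulVec, ← mulVec_mulVec, ← mulVec_mulVec]
  rw [e1, dotProduct_add, dotProduct_sub]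
  -- x·u and x·Jw
  have e2 : x ⬝ᵥ u = u ⬝ᵥ γ *ᵥ u + u ⬝ᵥ u := by
    conv_lhs => rw [← hu1]
    rw [dotProduct_comm, add_mulVec, one_mulVec, dotProduct_add]
  have e3 : x ⬝ᵥ J *ᵥ w = -(w ⬝ᵥ γ *ᵥ w + w ⬝ᵥ w) := by
    rw [skew hJT hJ2, ← hw1, add_mulVec, one_mulVec, dotProduct_add]
  -- |x - u + J w|^2 >= 0
  have e4 : 0 ≤ (x - u + J *ᵥ w) ⬝ᵥ (x - u + J *ᵥ w) := by
    have := dotProduct_star_self_nonneg (x - u + J *ᵥ w)
    simpa using this
  have e5 : (J *ᵥ w) ⬝ᵥ (J *ᵥ w) = w ⬝ᵥ w := by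
    rw [skew hJT hJ2, JJ hJT hJ2, dotProduct_neg, neg_neg]
  have e6 : (J *ᵥ w) ⬝ᵥ x = x ⬝ᵥ J *ᵥ w := dotProduct_comm _ _
  have e7 : u ⬝ᵥ J *ᵥ w = -(w ⬝ᵥ J *ᵥ u) := skew hJT hJ2 u w
  have e8 : (J *ᵥ w) ⬝ᵥ u = u ⬝ᵥ J *ᵥ w := dotProduct_comm _ _
  have e9 : u ⬝ᵥ x = x ⬝ᵥ u := dotProduct_comm _ _
  simp only [add_dotProduct, sub_dotProduct, dotProduct_add, dotProduct_sub] at e4
  rw [e5, e6, e8, e9] at e4
  nlinarith

/-- The Hermitian matrix with parameter `W`. -/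
noncomputable def Hmat (J γ W : Matrix ι ι ℝ) : Matrix ι ι ℝ :=
  aPart J (icay γ) + CFC.sqrt (cPart J (icay γ)) * W * CFC.sqrt (cPart J (icay γ))

omit hJT hJ2 in
theorem sqrt_isHermitian (P : Matrix ι ι ℝ) : (CFC.sqrt P).IsHermitian :=
  (Matrix.nonneg_iff_posSemidef.1 (CFC.sqrt_nonneg P)).isHermitian

omit hJT hJ2 in
theorem sqrt_comm {P : Matrix ι ι ℝ} (hP : P.PosSemidef) (h : J * P = P * J) :
    J * CFC.sqrt P = CFC.sqrt P * J := by
  have hc : Commute P J := h.symm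
  have : Commute (cfc NNReal.sqrt P) J := hc.cfc_nnreal NNReal.sqrt
  rw [CFC.sqrt_eq_cfc]
  exact this.eq.symm

theorem Hmat_isHermitian {γ W : Matrix ι ι ℝ} (hγ : γ.PosDef) (hW : W.IsHermitian) :
    (Hmat J γ W).IsHermitian := by
  have h1 := aPart_isHermitian hJT (icay_isHermitian hγ)
  have h2 := sqrt_isHermitian (cPart J (icay γ))
  rw [Matrix.IsHermitian, Hmat, conjTranspose_add, h1.eq, conjTranspose_mul, conjTranspose_mul,
    h2.eq, hW.eq, mul_assoc]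

theorem Hmat_anti {γ W : Matrix ι ι ℝ} (h : RealCov J γ) (hW : W ∈ WSet J) :
    J * Hmat J γ W = -(Hmat J γ W * J) := by
  have h1 := aPart_anti hJ2 (icay γ)
  have h2 := sqrt_comm (h.cPart_nonneg hJT hJ2) (cPart_comm hJ2 (icay γ))
  set T := CFC.sqrt (cPart J (icay γ)) with hT
  rw [Hmat, ← hT, mul_add, add_mul, h1, neg_add]
  congr 1
  calc J * (T * W * T) = (J * T) * W * T := by simp only [mul_assoc]
    _ = T * (J * W) * T := by rw [h2]; simp only [mul_assoc]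
    _ = -(T * W * (J * T)) := by rw [hW.2.1]; simp only [mul_neg, neg_mul, mul_assoc]
    _ = -(T * W * T * J) := by rw [h2]; simp only [mul_assoc]

theorem icay_sub_Hmat {γ W : Matrix ι ι ℝ} (h : RealCov J γ) (hW : W ∈ WSet J) :
    (icay γ - Hmat J γ W).PosSemidef := by
  have hP := h.cPart_nonneg hJT hJ2
  have hs : CFC.sqrt (cPart J (icay γ)) * CFC.sqrt (cPart J (icay γ)) = cPart J (icay γ) :=
    CFC.sqrt_mul_sqrt_self _ (Matrix.nonneg_iff_posSemidef.2 hP)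
  have hTh := sqrt_isHermitian (cPart J (icay γ))
  set T := CFC.sqrt (cPart J (icay γ)) with hT
  have e : icay γ - Hmat J γ W = Tᴴ * (1 - W) * T := by
    rw [hTh.eq, mul_sub, sub_mul, mul_one, hs, Hmat, ← hT]
    nth_rewrite 1 [← aPart_add_cPart (J := J) (icay γ)]
    abel
  rw [e]
  exact hW.2.2.1.conjTranspose_mul_mul_same _

theorem one_sub_Hmat {γ W : Matrix ι ι ℝ} (h : RealCov J γ) (hW : W ∈ WSet J) :
    (1 - Hmat J γ W).PosDef := by
  have h1 := one_sub_icay_posDef (h.posDef hJT hJ2)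
  have h2 := h1.add_posSemidef (icay_sub_Hmat hJT hJ2 h hW)
  rwa [sub_add_sub_cancel] at h2

/-- The pure covariance matrix with parameter `W`. -/
noncomputable def Mmat (J γ W : Matrix ι ι ℝ) : Matrix ι ι ℝ := cay (Hmat J γ W)

theorem Mmat_posDef {γ W : Matrix ι ι ℝ} (h : RealCov J γ) (hW : W ∈ WSet J) :
    (Mmat J γ W).PosDef :=
  cay_posDef hJT hJ2 (Hmat_anti hJT hJ2 h hW) (one_sub_Hmat hJT hJ2 h hW)

theorem Mmat_sympl {γ W : Matrix ι ι ℝ} (h : RealCov J γ) (hW : W ∈ WSet J) :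
    Mmat J γ W * J * Mmat J γ W = J :=
  cay_mul_J (Hmat_anti hJT hJ2 h hW) (one_sub_Hmat hJT hJ2 h hW)

theorem Mmat_le {γ W : Matrix ι ι ℝ} (h : RealCov J γ) (hW : W ∈ WSet J) :
    (γ - Mmat J γ W).PosSemidef := by
  have hγ := h.posDef hJT hJ2
  have := cay_mono (one_sub_icay_posDef hγ) (icay_sub_Hmat hJT hJ2 h hW)
  rwa [cay_icay hγ] at this

omit hJT hJ2 in
theorem isClosed_posSemidef : IsClosed {A : Matrix ι ι ℝ | A.PosSemidef} := by
  have : {A : Matrix ι ι ℝ | A.PosSemidef} = {A | Aᴴ = A} ∩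
      ⋂ x : ι → ℝ, {A | 0 ≤ star x ⬝ᵥ A *ᵥ x} := by
    ext A
    simp only [Set.mem_setOf_eq, Set.mem_inter_iff, Set.mem_iInter]
    exact ⟨fun h => ⟨h.isHermitian, fun x => h.dotProduct_mulVec_nonneg x⟩,
      fun h => Matrix.PosSemidef.of_dotProduct_mulVec_nonneg h.1 h.2⟩
  rw [this]
  refine IsClosed.inter (isClosed_eq ?_ continuous_id) (isClosed_iInter fun x =>
    isClosed_le continuous_const ?_)
  · exact continuous_id.matrix_conjTranspose
  · exact (continuous_const).dotProduct ((continuous_id).matrix_mulVec continuous_const)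

omit hJT hJ2 in
theorem isCompact_WSet : IsCompact (WSet J) := by
  haveI : ProperSpace (Matrix ι ι ℝ) := FiniteDimensional.proper ℝ _
  refine Metric.isCompact_of_isClosed_isBounded ?_ ?_
  · have e : WSet J = {W | Wᴴ = W} ∩ ({W | J * W = -(W * J)} ∩
        ((fun W => 1 - W) ⁻¹' {A : Matrix ι ι ℝ | A.PosSemidef} ∩
        (fun W => 1 + W) ⁻¹' {A : Matrix ι ι ℝ | A.PosSemidef})) := by
      ext W; rfl
    rw [e]
    refine IsClosed.inter (isClosed_eq continuous_id.matrix_conjTranspose continuous_id)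
      (IsClosed.inter (isClosed_eq ?_ ?_) (IsClosed.inter ?_ ?_))
    · exact continuous_const.matrix_mul continuous_id
    · exact (continuous_id.matrix_mul continuous_const).neg
    · exact isClosed_posSemidef.preimage (continuous_const.sub continuous_id)
    · exact isClosed_posSemidef.preimage (continuous_const.add continuous_id)
  · refine (Metric.isBounded_iff_subset_closedBall 0).2 ⟨1, fun W hW => ?_⟩
    rw [mem_closedBall_zero_iff]
    have hsa : IsSelfAdjoint W := hW.1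
    have h1 : W ≤ algebraMap ℝ (Matrix ι ι ℝ) 1 := by
      rw [map_one]; exact Matrix.le_iff.2 hW.2.2.1
    have h2 : algebraMap ℝ (Matrix ι ι ℝ) (-1) ≤ W := by
      rw [map_neg, map_one]
      refine Matrix.le_iff.2 ?_
      have := hW.2.2.2
      rwa [sub_neg_eq_add, add_comm]
    have h3 := (le_algebraMap_iff_spectrum_le (a := W)).1 h1
    have h4 := (algebraMap_le_iff_le_spectrum (a := W)).1 h2
    rw [← cfc_id ℝ W hsa]
    refine norm_cfc_le zero_le_one fun x hx => ?_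
    rw [id, Real.norm_eq_abs, abs_le]
    exact ⟨h4 x hx, h3 x hx⟩

end Squeezing
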