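import Pool.Agent.Work.MP_7519fb_mp.Param

/-!
# The value of a symplectic matrix, as a trace
-/

namespace Squeezing

open Matrix
open scoped MatrixOrder Matrix.Norms.L2Operator

variable {ι : Type} [Fintype ι] [DecidableEq ι]

variable {J : Matrix ι ι ℝ} 

theorem singularValues_eq (S : Matrix ι ι ℝ) {M : Matrix ι ι ℝ} (hM : M.IsHermitian)
    (h : Sᴴ * S = M) (i : ℕ) (hi : i < Fintype.card ι) :
    (Matrix.toEuclideanLin S).singularValues i = √(hM.eigenvalues₀ ⟨i, hi⟩) := by
  have hn : Module.finrank ℝ (EuclideanSpace ℝ ι) = Fintype.card ι := finrank_euclideanSpace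
  rw [LinearMap.singularValues_of_lt _ hn hi]
  congr 1
  have e : LinearMap.adjoint (Matrix.toEuclideanLin S) ∘ₗ Matrix.toEuclideanLin S =
      Matrix.toEuclideanLin M := by
    rw [← Matrix.toEuclideanLin_conjTranspose_eq_adjoint, ← h]
    exact (Matrix.toLpLin_mul_same 2 _ _).symm
  have := (LinearMap.IsSymmetric.eigenvalues_eq_eigenvalues_iff
    (Matrix.toEuclideanLin S).isSymmetric_adjoint_comp_self hn
    (Matrix.isSymmetric_toEuclideanLin_iff.mpr hM) hn).2 (by rw [e])
  exact congrFun this _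

theorem trace_cfc_eq {M : Matrix ι ι ℝ} (hM : M.IsHermitian) (f : ℝ → ℝ) :
    (cfc f M).trace = ∑ i, f (hM.eigenvalues₀ i) := by
  rw [hM.cfc_eq, Matrix.IsHermitian.cfc, Unitary.conjStarAlgAut_apply, Matrix.trace_mul_cycle,
    Unitary.coe_star_mul_self, one_mul, Matrix.trace_diagonal]
  simp only [Function.comp, Matrix.IsHermitian.eigenvalues, RCLike.ofReal_real_eq_id, id]
  exact Equiv.sum_comp (Fintype.equivOfCardEq (Fintype.card_fin _)).symm
    (fun j => f (hM.eigenvalues₀ j))

theorem eigenvalues₀_pos {M : Matrix ι ι ℝ} (hM : M.PosDef) (i : Fin (Fintype.card ι)) :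
    0 < hM.isHermitian.eigenvalues₀ i := by
  have := hM.eigenvalues_pos ((Fintype.equivOfCardEq (Fintype.card_fin _)) i)
  simpa [Matrix.IsHermitian.eigenvalues] using this

theorem cfc_inv_eq {M : Matrix ι ι ℝ} (hM : M.PosDef) : cfc (fun x : ℝ => x⁻¹) M = M⁻¹ := by
  have hsa : IsSelfAdjoint M := hM.isHermitian
  symm
  refine Matrix.inv_eq_right_inv ?_
  have hc : ∀ f : ℝ → ℝ, ContinuousOn f (spectrum ℝ M) := fun f =>
    (Matrix.finite_real_spectrum (A := M)).continuousOn f
  have h1 : cfc (fun x : ℝ => x * x⁻¹) M = cfc (fun x : ℝ => x) M * cfc (fun x : ℝ => x⁻¹) M :=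
    cfc_mul (fun x : ℝ => x) (fun x : ℝ => x⁻¹) M (hc _) (hc _)
  rw [cfc_id' ℝ M hsa] at h1
  rw [← h1, ← cfc_one ℝ M hsa]
  refine cfc_congr fun x hx => ?_
  have hx' : x ∈ Set.range hM.isHermitian.eigenvalues := by
    rw [← hM.isHermitian.spectrum_real_eq_range_eigenvalues]; exact hx
  obtain ⟨i, rfl⟩ := hx'
  have := hM.eigenvalues_pos i
  simp [this.ne']

theorem map_univ_equiv' {α β γ : Type} [Fintype α] [Fintype β] (e : α ≃ β) (f : β → γ) :
    Multiset.map (fun a => f (e a)) Finset.univ.val = Multiset.map f Finset.univ.val := by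
  have : (Finset.univ : Finset β) = Finset.univ.map e.toEmbedding :=
    (Finset.map_univ_equiv e).symm
  rw [this, Finset.map_val, Multiset.map_map]
  rfl

theorem eigenvalues₀_pair (hJT : Jᴴ = -J) (hJ2 : J * J = -1) {M : Matrix ι ι ℝ} (hM : M.PosDef)
    (h : M * J * M = J) (i : Fin (Fintype.card ι)) :
    hM.isHermitian.eigenvalues₀ (Fin.rev i) = (hM.isHermitian.eigenvalues₀ i)⁻¹ := by
  have hinv : M⁻¹ = J * M * Jᴴ := by
    refine Matrix.inv_eq_right_inv ?_
    rw [← mul_assoc, ← mul_assoc, h, J_mul_JH hJT hJ2]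
  have hch : (M⁻¹).charpoly = M.charpoly := by
    rw [hinv, Matrix.charpoly_mul_comm, ← mul_assoc, JH_mul_J hJT hJ2, one_mul]
  have hr1 := hM.isHermitian.roots_charpoly_eq_eigenvalues₀
  have hr2 : (M⁻¹).charpoly.roots =
      Multiset.map (fun i => (hM.isHermitian.eigenvalues₀ i)⁻¹) Finset.univ.val := by
    rw [← cfc_inv_eq hM, hM.isHermitian.charpoly_cfc_eq, Polynomial.roots_prod _ _ (by
      simp [Finset.prod_ne_zero_iff, Polynomial.X_sub_C_ne_zero])]
    simp only [RCLike.ofReal_real_eq_id, id, Polynomial.roots_X_sub_C, Multiset.bind_singleton]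
    simp only [Matrix.IsHermitian.eigenvalues]
    exact map_univ_equiv' (Fintype.equivOfCardEq (Fintype.card_fin _)).symm
      (fun j => (hM.isHermitian.eigenvalues₀ j)⁻¹)
  rw [hch, hr1] at hr2
  -- two antitone lists with the same elements
  have hp : (List.ofFn fun i => hM.isHermitian.eigenvalues₀ i).Perm
      (List.ofFn fun i => (hM.isHermitian.eigenvalues₀ (Fin.rev i))⁻¹) := by
    rw [← Multiset.coe_eq_coe]
    have e1 : ((List.ofFn fun i => hM.isHermitian.eigenvalues₀ i : List ℝ) : Multiset ℝ) =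
        Multiset.map (fun i => hM.isHermitian.eigenvalues₀ i) Finset.univ.val := by
      rw [Fin.univ_val_map]
    have e2 : ((List.ofFn fun i => (hM.isHermitian.eigenvalues₀ (Fin.rev i))⁻¹ : List ℝ) :
        Multiset ℝ) = Multiset.map (fun i => (hM.isHermitian.eigenvalues₀ (Fin.rev i))⁻¹)
          Finset.univ.val := by
      rw [Fin.univ_val_map]
    rw [e1, e2]
    have e3 : Multiset.map (fun i => (hM.isHermitian.eigenvalues₀ (Fin.rev i))⁻¹)
          Finset.univ.val = Multiset.map (fun i => (hM.isHermitian.eigenvalues₀ i)⁻¹)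
          Finset.univ.val :=
      map_univ_equiv' Fin.revPerm (fun j => (hM.isHermitian.eigenvalues₀ j)⁻¹)
    rw [e3, ← hr2]
    rfl
  have ha := hM.isHermitian.eigenvalues₀_antitone
  have hs1 : (List.ofFn fun i => hM.isHermitian.eigenvalues₀ i).SortedGE := ha.sortedGE_ofFn
  have hb : Antitone fun i => (hM.isHermitian.eigenvalues₀ (Fin.rev i))⁻¹ := by
    intro a b hab
    have h1 : hM.isHermitian.eigenvalues₀ (Fin.rev a) ≤ hM.isHermitian.eigenvalues₀ (Fin.rev b) :=
      ha (Fin.rev_le_rev.2 hab)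
    exact inv_anti₀ (eigenvalues₀_pos hM _) h1
  have hs2 : (List.ofFn fun i => (hM.isHermitian.eigenvalues₀ (Fin.rev i))⁻¹).SortedGE :=
    hb.sortedGE_ofFn
  have heq := hp.eq_of_pairwise' hs1.pairwise hs2.pairwise
  have := congrFun (List.ofFn_injective heq) i
  rw [this, inv_inv]

/-- The value, as a trace. -/
noncomputable def tval (M : Matrix ι ι ℝ) : ℝ := 4⁻¹ * (cfc (fun x : ℝ => |Real.log x|) M).trace

theorem value_eq (hJT : Jᴴ = -J) (hJ2 : J * J = -1) {n : ℕ} (hn : Fintype.card ι = n + n)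
    (S : Matrix ι ι ℝ) {M : Matrix ι ι ℝ} (hM : M.PosDef) (h : M * J * M = J) (hS : Sᴴ * S = M) :
    ∑ i ∈ Finset.range n, Real.log ((Matrix.toEuclideanLin S).singularValues i) = tval M := by
  set lam := hM.isHermitian.eigenvalues₀ with hlam
  have hpos := eigenvalues₀_pos hM
  have hpair := eigenvalues₀_pair hJT hJ2 hM h
  rw [tval, trace_cfc_eq hM.isHermitian]
  -- extend to natural numbers
  let g : ℕ → ℝ := fun i => if hi : i < Fintype.card ι then Real.log (lam ⟨i, hi⟩) else 0
  have h1 : ∑ i ∈ Finset.range n, Real.log ((Matrix.toEuclideanLin S).singularValues i) =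
      ∑ i ∈ Finset.range n, 2⁻¹ * g i := by
    refine Finset.sum_congr rfl fun i hi => ?_
    have hi' : i < Fintype.card ι := by have := Finset.mem_range.1 hi; omega
    rw [singularValues_eq S hM.isHermitian hS i hi', Real.log_sqrt (hpos _).le]
    simp only [g, hi', dif_pos]
    ring
  have hgr : ∀ i, i < n → g (n + n - 1 - i) = - g i := by
    intro i hi
    have h2 : i < Fintype.card ι := by omega
    have h3 : n + n - 1 - i < Fintype.card ι := by omega
    simp only [g, h2, h3, dif_pos]
    have e : (⟨n + n - 1 - i, h3⟩ : Fin (Fintype.card ι)) = Fin.rev ⟨i, h2⟩ := by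
      ext
      simp only [Fin.val_rev]
      omega
    rw [e, hlam, hpair, Real.log_inv]
  have hg0 : ∀ i, i < n → 0 ≤ g i := by
    intro i hi
    have h2 : i < Fintype.card ι := by omega
    have h3 : n + n - 1 - i < Fintype.card ι := by omega
    have h4 : g (n + n - 1 - i) ≤ g i := by
      simp only [g, h2, h3, dif_pos]
      refine Real.log_le_log (hpos _) ?_
      refine hM.isHermitian.eigenvalues₀_antitone ?_
      rw [Fin.le_def]
      simp only
      omega
    rw [hgr i hi] at h4
    linarith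
  have h2 : ∑ i, |Real.log (hM.isHermitian.eigenvalues₀ i)| =
      ∑ i ∈ Finset.range (n + n), |g i| := by
    rw [← hn, Finset.sum_range]
    refine Finset.sum_congr rfl fun i _ => ?_
    simp [g, hlam]
  have h3 : ∑ i ∈ Finset.range (n + n), |g i| = ∑ i ∈ Finset.range n, 2 * g i := by
    rw [Finset.sum_range_add]
    have e1 : ∑ x ∈ Finset.range n, |g x| = ∑ x ∈ Finset.range n, g x :=
      Finset.sum_congr rfl fun i hi => abs_of_nonneg (hg0 i (Finset.mem_range.1 hi))
    have e2 : ∑ x ∈ Finset.range n, |g (n + x)| = ∑ x ∈ Finset.range n, g x := by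
      rw [← Finset.sum_range_reflect]
      refine Finset.sum_congr rfl fun i hi => ?_
      have hi' := Finset.mem_range.1 hi
      have : n + (n - 1 - i) = n + n - 1 - i := by omega
      rw [this, hgr i hi', abs_neg, abs_of_nonneg (hg0 i hi')]
    rw [e1, e2, ← Finset.sum_add_distrib]
    refine Finset.sum_congr rfl fun i _ => by ring
  rw [h1, h2, h3, Finset.mul_sum]
  refine Finset.sum_congr rfl fun i _ => by ring

end Squeezing
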